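import Pool.Agent.Helper31.LQ.Goals
import Mathlib

/-!
# Project LQ (MP_6fb600_gt), packet FKH
-/

set_option autoImplicit false

open MeasureTheory Set
open scoped ENNReal Matrix
open Pool.Agent.Helper31.LQ

namespace Pool.Agent.Helper4.LQ

theorem lin_mul {n d : ℕ} (g : Matrix (Fin d) (Fin d) ℝ) (Y : Fin n → Fin d → ℝ)
    (x : Fin n → ℝ) : lin (fun l => g *ᵥ Y l) x = g *ᵥ (lin Y x) := by
  funext c
  simp only [lin, Matrix.mulVec, dotProduct, Finset.mul_sum]
  rw [Finset.sum_comm]
  refine Finset.sum_congr rfl fun l _ => Finset.sum_congr rfl fun b _ => ?_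
  ring

/-- packet FKH -/
theorem gFKH (hMV : MV) : FKH := by
  intro n d K hK
  refine ⟨?_, ?_⟩
  · unfold fK
    exact ((hMV n d K hK).pow_const n).inv
  · intro g hg Y
    unfold fK
    have h1 : lin (fun l => g *ᵥ Y l) '' K = (Matrix.toLin' g) '' (lin Y '' K) := by
      rw [← image_comp]
      refine image_congr fun x _ => ?_
      rw [lin_mul]
      rfl
    have h2 : volume ((Matrix.toLin' g) '' (lin Y '' K)) =
        ENNReal.ofReal |g.det| * volume (lin Y '' K) := by
      rw [Measure.addHaar_image_linearMap, LinearMap.det_toLin']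
    have hpos : 0 < |g.det| := abs_pos.2 hg
    have h3 : ENNReal.ofReal |g.det| ≠ 0 := by
      rw [Ne, ENNReal.ofReal_eq_zero, not_le]
      exact hpos
    have h4 : ENNReal.ofReal |g.det| ≠ ⊤ := ENNReal.ofReal_ne_top
    rw [h1, h2, ENNReal.ofReal_pow (abs_nonneg _), mul_pow,
      ENNReal.mul_inv (Or.inl (pow_ne_zero _ h3)) (Or.inl (ENNReal.pow_ne_top h4)), mul_comm,
      ← mul_assoc, ENNReal.mul_inv_cancel (pow_ne_zero _ h3) (ENNReal.pow_ne_top h4), one_mul]

end Pool.Agent.Helper4.LQ
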